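import Mathlib
import Pool.Agent.Lib.MP_16ef92_ag.AL.ETor

set_option autoImplicit false
set_option linter.unusedSectionVars false
set_option linter.unusedVariables false

namespace Pool.Agent.Lib.MP_16ef92_ag.ND

noncomputable section

open WeierstrassCurve Polynomial AL.EC

variable {K κ : Type} [Field K] [Field κ] [DecidableEq K] {O : Subring K} {ev : O →+* κ}
  {W : Affine K} {a b : O} {α : κ}

variable (ev W a b α) in
/-- The curve `y ^ 2 = x (x - a) (x - b)` reduces to the node `y ^ 2 = x ^ 2 (x + α ^ 2)`. -/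
structure Nd : Prop where
  val : ∀ x : K, x ∈ O ∨ x⁻¹ ∈ O
  loc : ∀ z : O, ev z ≠ 0 → (z : K)⁻¹ ∈ O
  sh : Sh W
  a₂ : W.a₂ = -(a + b)
  a₄ : W.a₄ = a * b
  a₆ : W.a₆ = 0
  ea : ev a = 0
  eb : ev b = -α ^ 2
  ne : α ≠ 0
  two : (2 : κ) ≠ 0

variable (ev) in
/-- The point does not reduce to the node. -/
def G0 (P : W.Point) : Prop := P = 0 ∨ ∀ h : xc P ∈ O, ev ⟨_, h⟩ ≠ 0

open scoped Classical in
variable (ev α) in
/-- The parameter on the smooth part of the nodal cubic. -/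
def uu (P : W.Point) : κ :=
  if h : P ≠ 0 ∧ xc P ∈ O ∧ yc P ∈ O then
    (ev ⟨_, h.2.2⟩ - α * ev ⟨_, h.2.1⟩) / (ev ⟨_, h.2.2⟩ + α * ev ⟨_, h.2.1⟩) else 1

theorem g0_zero : G0 ev (0 : W.Point) := Or.inl rfl

theorem uu_zero : uu ev α (0 : W.Point) = 1 := dif_neg fun h => h.1 rfl

theorem g0_neg {P : W.Point} (h : G0 ev P) : G0 ev (-P) :=
  h.imp neg_eq_zero.2 fun h1 h2 => by simpa only [xc_neg] using h1 (by simpa only [xc_neg] using h2)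

variable (D : Nd ev W a b α)
include D

/-- As `SpecData.curve_sq_mem`. -/
theorem Nd.sq_mem {y : K} (h : y ^ 2 ∈ O) : y ∈ O := by
  rcases D.val y with h' | h'
  · exact h'
  · by_cases hy : y = 0
    · rw [hy]; exact O.zero_mem
    · have : y = y ^ 2 * y⁻¹ := by field_simp
      rw [this]; exact O.mul_mem h h'

theorem Nd.noda_a2 : W.a₂ ∈ O := D.a₂ ▸ O.neg_mem (O.add_mem a.2 b.2)

theorem Nd.noda_a4 : W.a₄ ∈ O := D.a₄ ▸ O.mul_mem a.2 b.2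

/-- As `SpecData.yc_mem`. -/
theorem Nd.yc_mem {P : W.Point} (hx : xc P ∈ O) : yc P ∈ O := by
  by_cases hP : P = 0
  · rw [hP, yc_zero]; exact O.zero_mem
  · apply D.sq_mem
    rw [yc_sq D.sh.a₁ D.sh.a₃ hP, eval_cub, D.a₆, add_zero]
    exact O.add_mem (O.add_mem (O.pow_mem hx 3) (O.mul_mem D.noda_a2 (O.pow_mem hx 2)))
      (O.mul_mem D.noda_a4 hx)

theorem Nd.noda_inv {y : K} (h : y ∉ O) : y⁻¹ ∈ O := (D.val y).resolve_left h

theorem Nd.noda_ev {y : K} (h : y ∉ O) : ev ⟨_, D.noda_inv h⟩ = 0 := by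
  by_contra hne
  have := D.loc _ hne
  simp only [inv_inv] at this
  exact h this

theorem Nd.noda_e2 : ev ⟨_, D.noda_a2⟩ = α ^ 2 := by
  have : (⟨_, D.noda_a2⟩ : O) = -(a + b) := Subtype.ext D.a₂
  rw [this, map_neg, map_add, D.ea, D.eb, zero_add, neg_neg]

theorem Nd.noda_e4 : ev ⟨_, D.noda_a4⟩ = 0 := by
  have : (⟨_, D.noda_a4⟩ : O) = a * b := Subtype.ext D.a₄
  rw [this, map_mul, D.ea, zero_mul]

theorem Nd.noda_uu {P : W.Point} (hP : P ≠ 0) (hx : xc P ∈ O) : uu ev α P =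
    (ev ⟨_, D.yc_mem hx⟩ - α * ev ⟨_, hx⟩) / (ev ⟨_, D.yc_mem hx⟩ + α * ev ⟨_, hx⟩) :=
  dif_pos ⟨hP, hx, D.yc_mem hx⟩

omit D in
theorem noda_out {P : W.Point} (hx : xc P ∉ O) : uu ev α P = 1 := dif_neg fun h => hx h.2.1

theorem Nd.noda_eq {P : W.Point} (hP : P ≠ 0) (hx : xc P ∈ O) :
    (ev ⟨_, D.yc_mem hx⟩ - α * ev ⟨_, hx⟩) * (ev ⟨_, D.yc_mem hx⟩ + α * ev ⟨_, hx⟩) =
      ev ⟨_, hx⟩ ^ 3 := by
  have h := yc_sq D.sh.a₁ D.sh.a₃ hP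
  rw [eval_cub, D.a₆, add_zero] at h
  have h' : (⟨_, D.yc_mem hx⟩ : O) ^ 2 =
      ⟨_, hx⟩ ^ 3 + ⟨_, D.noda_a2⟩ * ⟨_, hx⟩ ^ 2 + ⟨_, D.noda_a4⟩ * ⟨_, hx⟩ := Subtype.ext h
  have h'' := congrArg ev h'
  simp only [map_add, map_mul, map_pow, D.noda_e2, D.noda_e4] at h''
  linear_combination h''

theorem Nd.noda_opp {P Q : W.Point} (hP : P ≠ 0) (hQ : Q ≠ 0) (hp : xc P ∈ O) (hq : xc Q ∈ O)
    (h0 : ev ⟨_, hp⟩ ≠ 0) (e1 : ev ⟨_, hp⟩ = ev ⟨_, hq⟩)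
    (e2 : ev ⟨_, D.yc_mem hp⟩ = -ev ⟨_, D.yc_mem hq⟩) : uu ev α P * uu ev α Q = 1 := by
  have h1 := mul_ne_zero_iff.1 ((D.noda_eq hP hp).trans_ne (pow_ne_zero 3 h0))
  rw [D.noda_uu hP hp, D.noda_uu hQ hq, ← e1, ← neg_neg (ev ⟨_, D.yc_mem hq⟩), ← e2,
    div_mul_div_comm, div_eq_one_iff_eq (mul_ne_zero h1.2 fun e => h1.1 (by linear_combination -e))]
  ring

theorem Nd.noda_neg {P : W.Point} (h : G0 ev P) : uu ev α P * uu ev α (-P) = 1 := by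
  by_cases hP : P = 0
  · rw [hP, neg_zero, uu_zero, mul_one]
  by_cases hx : xc P ∈ O
  · refine D.noda_opp hP (neg_ne_zero.2 hP) hx (by rwa [xc_neg]) (h.resolve_left hP hx)
      (congrArg ev (Subtype.ext (xc_neg P).symm)) ?_
    rw [← map_neg]
    exact congrArg ev (Subtype.ext (neg_eq_iff_eq_neg.1 (yc_neg D.sh.a₁ D.sh.a₃ P).symm))
  · rw [noda_out hx, noda_out (by rwa [xc_neg]), mul_one]

omit D in
theorem noda_alg {x₁ x₂ x₃ y₁ y₂ y₃ l m : κ} (e1 : y₁ = l * x₁ + m) (e2 : y₂ = l * x₂ + m)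
    (e3 : y₃ = l * x₃ + m) (s1 : x₁ + x₂ + x₃ = l ^ 2 - α ^ 2)
    (s2 : x₁ * x₂ + x₁ * x₃ + x₂ * x₃ = -(2 * l * m)) (s3 : x₁ * x₂ * x₃ = m ^ 2) (h1 : x₁ ≠ 0)
    (h2 : x₂ ≠ 0) : x₃ ≠ 0 ∧ (y₁ - α * x₁) / (y₁ + α * x₁) * ((y₂ - α * x₂) / (y₂ + α * x₂)) *
      ((y₃ - α * x₃) / (y₃ + α * x₃)) = 1 := by
  have h3 : x₃ ≠ 0 := fun e => by
    have hm : m = 0 := pow_eq_zero_iff two_ne_zero |>.1 (by rw [← s3, e, mul_zero])
    exact mul_ne_zero h1 h2 (by rw [e, hm] at s2; linear_combination s2)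
  have hm : m ≠ 0 := fun e => mul_ne_zero (mul_ne_zero h1 h2) h3 (by rw [s3, e]; ring)
  have h4 : (y₁ - α * x₁) * (y₂ - α * x₂) * (y₃ - α * x₃) = m ^ 3 := by
    rw [e1, e2, e3]
    linear_combination (l - α) ^ 3 * s3 + (l - α) ^ 2 * m * s2 + (l - α) * m ^ 2 * s1
  have h5 : (y₁ + α * x₁) * (y₂ + α * x₂) * (y₃ + α * x₃) = m ^ 3 := by
    rw [e1, e2, e3]
    linear_combination (l + α) ^ 3 * s3 + (l + α) ^ 2 * m * s2 + (l + α) * m ^ 2 * s1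
  rw [div_mul_div_comm, div_mul_div_comm, h4, h5]
  exact ⟨h3, div_self (pow_ne_zero 3 hm)⟩

theorem Nd.noda_two {P Q R : W.Point} (hP : P ≠ 0) (hQ : Q ≠ 0) (hR : R ≠ 0)
    (h : P + Q + R = 0) (hp : xc P ∈ O) (hq : xc Q ∈ O) :
    (∃ hr : xc R ∈ O, ∃ l m : κ, ev ⟨_, D.yc_mem hp⟩ = l * ev ⟨_, hp⟩ + m ∧
      ev ⟨_, D.yc_mem hq⟩ = l * ev ⟨_, hq⟩ + m ∧ ev ⟨_, D.yc_mem hr⟩ = l * ev ⟨_, hr⟩ + m ∧
      ev ⟨_, hp⟩ + ev ⟨_, hq⟩ + ev ⟨_, hr⟩ = l ^ 2 - α ^ 2 ∧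
      ev ⟨_, hp⟩ * ev ⟨_, hq⟩ + ev ⟨_, hp⟩ * ev ⟨_, hr⟩ + ev ⟨_, hq⟩ * ev ⟨_, hr⟩ = -(2 * l * m) ∧
      ev ⟨_, hp⟩ * ev ⟨_, hq⟩ * ev ⟨_, hr⟩ = m ^ 2) ∨
    (xc R ∉ O ∧ ev ⟨_, hp⟩ = ev ⟨_, hq⟩ ∧ ev ⟨_, D.yc_mem hp⟩ = -ev ⟨_, D.yc_mem hq⟩) := by
  obtain ⟨l, m, e1, e2, e3, s1, s2, s3⟩ := (add3_iff D.sh.a₁ D.sh.a₃ hP hQ hR).1 h
  have h2 := D.noda_a2
  have h4 := D.noda_a4
  by_cases hl : l ∈ O
  · have hm : m ∈ O := by
      have : m = yc P - l * xc P := by linear_combination -e1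
      rw [this]; exact O.sub_mem (D.yc_mem hp) (O.mul_mem hl hp)
    have hr : xc R ∈ O := by
      have : xc R = l ^ 2 - W.a₂ - xc P - xc Q := by linear_combination s1
      rw [this]; exact O.sub_mem (O.sub_mem (O.sub_mem (O.pow_mem hl 2) h2) hp) hq
    refine Or.inl ⟨hr, ev ⟨l, hl⟩, ev ⟨m, hm⟩, ?_, ?_, ?_, ?_, ?_, ?_⟩
    · rw [← map_mul, ← map_add]; exact congrArg ev (Subtype.ext e1)
    · rw [← map_mul, ← map_add]; exact congrArg ev (Subtype.ext e2)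
    · rw [← map_mul, ← map_add]; exact congrArg ev (Subtype.ext e3)
    · rw [← D.noda_e2, ← map_pow, ← map_add, ← map_add, ← map_sub]
      exact congrArg ev (Subtype.ext s1)
    · have s2' : (⟨_, hp⟩ * ⟨_, hq⟩ + ⟨_, hp⟩ * ⟨_, hr⟩ + ⟨_, hq⟩ * ⟨_, hr⟩ : O) =
          ⟨_, h4⟩ - (⟨l, hl⟩ * ⟨m, hm⟩ + ⟨l, hl⟩ * ⟨m, hm⟩) :=
        Subtype.ext (s2.trans (by push_cast; ring))
      have := congrArg ev s2'
      simp only [map_add, map_mul, map_sub, D.noda_e4] at this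
      linear_combination this
    · rw [← map_pow, ← map_mul, ← map_mul]
      exact congrArg ev (Subtype.ext (s3.trans (by rw [D.a₆, sub_zero]; rfl)))
  · have hl0 : l ≠ 0 := fun h0 => hl (h0 ▸ O.zero_mem)
    have hu := D.noda_ev hl
    refine Or.inr ⟨fun hr => hl (D.sq_mem ?_), ?_, ?_⟩
    · have : l ^ 2 = xc P + xc Q + xc R + W.a₂ := by linear_combination -s1
      rw [this]; exact O.add_mem (O.add_mem (O.add_mem hp hq) hr) h2
    · have t : (⟨_, hp⟩ : O) = ⟨_, hq⟩ + ⟨_, D.noda_inv hl⟩ *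
          (⟨_, D.yc_mem hp⟩ - ⟨_, D.yc_mem hq⟩) := by
        apply Subtype.ext
        push_cast
        field_simp
        linear_combination e2 - e1
      rw [t, map_add, map_mul, hu, zero_mul, add_zero]
    · have t : (⟨_, D.yc_mem hp⟩ : O) = -⟨_, D.yc_mem hq⟩ + ⟨_, D.noda_inv hl⟩ *
          (⟨_, hp⟩ ^ 2 + ⟨_, hp⟩ * ⟨_, hq⟩ + ⟨_, hq⟩ ^ 2 + ⟨_, h2⟩ * (⟨_, hp⟩ + ⟨_, hq⟩) +
            ⟨_, h4⟩) := by
        apply Subtype.ext
        push_cast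
        field_simp
        linear_combination l * e1 + l * e2 - (xc P + xc Q) * s1 + s2
      rw [t, map_add, map_mul, hu, zero_mul, add_zero, map_neg]

theorem Nd.noda_one {P Q R : W.Point} (hP : P ≠ 0) (hQ : Q ≠ 0) (hR : R ≠ 0)
    (h : P + Q + R = 0) (hp : xc P ∈ O) (hq : xc Q ∉ O) (hr : xc R ∉ O) : False := by
  obtain ⟨l, m, e1, -, -, s1, s2, -⟩ := (add3_iff D.sh.a₁ D.sh.a₃ hP hQ hR).1 h
  have h2 := D.noda_a2
  have h4 := D.noda_a4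
  have hy := D.yc_mem hp
  have hA : xc Q - xc P ∉ O := fun h' => hq (by simpa using O.add_mem h' hp)
  have hB : xc R - xc P ∉ O := fun h' => hr (by simpa using O.add_mem h' hp)
  have hA0 : xc Q - xc P ≠ 0 := fun h0 => hA (h0 ▸ O.zero_mem)
  have hB0 : xc R - xc P ≠ 0 := fun h0 => hB (h0 ▸ O.zero_mem)
  set f := W.a₄ + (W.a₂ * xc P + W.a₂ * xc P) + (xc P ^ 2 + xc P ^ 2 + xc P ^ 2) with hf
  have hfO : f ∈ O := O.add_mem (O.add_mem h4 (O.add_mem (O.mul_mem h2 hp) (O.mul_mem h2 hp)))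
    (O.add_mem (O.add_mem (O.pow_mem hp 2) (O.pow_mem hp 2)) (O.pow_mem hp 2))
  have hAB : (xc Q - xc P) * (xc R - xc P) = f - l * (yc P + yc P) := by
    rw [hf]; linear_combination s2 - 2 * xc P * s1 + 2 * l * e1
  have hS : (xc Q - xc P) + (xc R - xc P) = l ^ 2 - (W.a₂ + (xc P + xc P + xc P)) := by
    linear_combination s1
  have hg : W.a₂ + (xc P + xc P + xc P) ∈ O := O.add_mem h2 (O.add_mem (O.add_mem hp hp) hp)
  generalize xc Q - xc P = A at *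
  generalize xc R - xc P = B at *
  generalize W.a₂ + (xc P + xc P + xc P) = g at *
  have hl : l ∈ O := by
    by_contra hl
    have hl0 : l ≠ 0 := fun h0 => hl (h0 ▸ O.zero_mem)
    apply hl
    have : l = (A⁻¹ + B⁻¹) * (f * l⁻¹ - (yc P + yc P)) + l⁻¹ * g := by
      have t : f * l⁻¹ - (yc P + yc P) = A * B * l⁻¹ := by
        rw [hAB]; field_simp
      rw [t]
      field_simp
      linear_combination -hS
    rw [this]
    exact O.add_mem (O.mul_mem (O.add_mem (D.noda_inv hA) (D.noda_inv hB))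
      (O.sub_mem (O.mul_mem hfO (D.noda_inv hl)) (O.add_mem hy hy)))
      (O.mul_mem (D.noda_inv hl) hg)
  apply hA
  have : A = (f - l * (yc P + yc P)) * B⁻¹ := by rw [← hAB]; field_simp
  rw [this]
  exact O.mul_mem (O.sub_mem hfO (O.mul_mem hl (O.add_mem hy hy))) (D.noda_inv hB)

/-- Three collinear points.  Follow `SpecData.curve_three`, `curve_two`, `curve_one` of `AL/E0`
(`add3_iff`; they do not use the discriminant of the reduction except for nonsingularity).  With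
residues `y_i = l x_i + m`, `∏ (y_i - α x_i) = m ^ 3 = ∏ (y_i + α x_i)` and
`(y - α x) (y + α x) = x ^ 3 ≠ 0`; if `x_R` reduces to `0` then `m` does and `x_P x_Q` does.
If the slope is not integral, `P`, `Q` have opposite reductions. -/
theorem Nd.three {P Q R : W.Point} (h : P + Q + R = 0) (hP : G0 ev P) (hQ : G0 ev Q) :
    G0 ev R ∧ uu ev α P * uu ev α Q * uu ev α R = 1 := by
  by_cases p0 : P = 0
  · rw [p0, zero_add, add_eq_zero_iff_neg_eq] at h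
    rw [← h, p0, uu_zero, one_mul]
    exact ⟨g0_neg hQ, D.noda_neg hQ⟩
  by_cases q0 : Q = 0
  · rw [q0, add_zero, add_eq_zero_iff_neg_eq] at h
    rw [← h, q0, uu_zero, mul_one]
    exact ⟨g0_neg hP, D.noda_neg hP⟩
  by_cases r0 : R = 0
  · rw [r0, add_zero, add_eq_zero_iff_neg_eq] at h
    rw [← h, r0, uu_zero, mul_one]
    exact ⟨g0_zero, D.noda_neg hP⟩
  have h132 : P + R + Q = 0 := by rw [← h]; abel
  have h231 : Q + R + P = 0 := by rw [← h]; abel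
  have h312 : R + P + Q = 0 := by rw [← h]; abel
  replace hP := hP.resolve_left p0
  replace hQ := hQ.resolve_left q0
  by_cases hp : xc P ∈ O <;> by_cases hq : xc Q ∈ O
  · rcases D.noda_two p0 q0 r0 h hp hq with ⟨hr, l, m, e1, e2, e3, s1, s2, s3⟩ | ⟨hr, e1, e2⟩
    · obtain ⟨h1, h2⟩ := noda_alg e1 e2 e3 s1 s2 s3 (hP hp) (hQ hq)
      rw [D.noda_uu p0 hp, D.noda_uu q0 hq, D.noda_uu r0 hr]
      exact ⟨Or.inr fun _ => h1, h2⟩
    · rw [noda_out hr, mul_one]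
      exact ⟨Or.inr fun e => (hr e).elim, D.noda_opp p0 q0 hp hq (hP hp) e1 e2⟩
  · by_cases hr : xc R ∈ O
    · obtain ⟨-, e1, e2⟩ := (D.noda_two p0 r0 q0 h132 hp hr).resolve_left fun e => hq e.1
      rw [noda_out hq, mul_one]
      exact ⟨Or.inr fun _ => e1 ▸ hP hp, D.noda_opp p0 r0 hp hr (hP hp) e1 e2⟩
    · exact (D.noda_one p0 q0 r0 h hp hq hr).elim
  · by_cases hr : xc R ∈ O
    · obtain ⟨-, e1, e2⟩ := (D.noda_two q0 r0 p0 h231 hq hr).resolve_left fun e => hp e.1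
      rw [noda_out hp, one_mul]
      exact ⟨Or.inr fun _ => e1 ▸ hQ hq, D.noda_opp q0 r0 hq hr (hQ hq) e1 e2⟩
    · exact (D.noda_one q0 r0 p0 h231 hq hr hp).elim
  · by_cases hr : xc R ∈ O
    · exact (D.noda_one r0 p0 q0 h312 hr hp hq).elim
    · rw [noda_out hp, noda_out hq, noda_out hr, mul_one, mul_one]
      exact ⟨Or.inr fun e => (hr e).elim, rfl⟩

theorem Nd.add {P Q : W.Point} (hP : G0 ev P) (hQ : G0 ev Q) :
    G0 ev (P + Q) ∧ uu ev α (P + Q) = uu ev α P * uu ev α Q := by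
  obtain ⟨h1, h2⟩ := D.three (R := -(P + Q)) (add_neg_cancel _) hP hQ
  have h3 : G0 ev (P + Q) := neg_neg (P + Q) ▸ g0_neg h1
  have h4 := (D.three (P := P + Q) (Q := -(P + Q)) (R := 0) (by simp) h3 h1).2
  rw [uu_zero, mul_one] at h4
  exact ⟨h3, by linear_combination uu ev α P * uu ev α Q * h4 - uu ev α (P + Q) * h2⟩

/-- `uu P = 1` forces `P = 0` or a non-integral abscissa; then argue as in `SpecData.tors_inj`. -/
theorem Nd.inj {P : W.Point} (hP : G0 ev P) (h1 : uu ev α P = 1) {n : ℕ} (hn : (n : κ) ≠ 0)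
    (h : n • P = 0) : P = 0 := by
  classical
  by_contra h0
  obtain ⟨ι, hι⟩ := exists_isMap D.sh (algebraMap K (AlgebraicClosure K)) rfl
  obtain ⟨u, v, h2, h3, h4⟩ := nsmul_sp (k := AlgebraicClosure K) D.sh rfl (A := O)
    (D.a₂ ▸ O.neg_mem (O.add_mem a.2 b.2)) (D.a₄ ▸ O.mul_mem a.2 b.2) (D.a₆ ▸ O.zero_mem) n
  have h5 := h3.ker (hι.ne P h0) (by
    change n • ι P = 0
    rw [← map_nsmul, h, map_zero])
  rw [hι.x, aeval_algebraMap_apply, _root_.map_eq_zero, coe_aeval_eq_eval] at h5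
  have hx : xc P ∈ O := root_mem D.val D.loc (mul_mem PA.X_mem h4) (n := n ^ 2)
    (a := (n : O) ^ 2) (by push_cast; exact h2.tv)
    (by rw [map_pow, map_natCast]; exact pow_ne_zero 2 hn) (by rw [eval_mul, h5, mul_zero])
  rw [uu, dif_pos ⟨h0, hx, D.yc_mem hx⟩] at h1
  exact mul_ne_zero (mul_ne_zero D.two D.ne) (hP.resolve_left h0 hx)
    (by linear_combination -eq_of_div_eq_one h1)

theorem Nd.nodb_nsmul {P : W.Point} (hP : G0 ev P) (k : ℕ) :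
    G0 ev (k • P) ∧ uu ev α (k • P) = uu ev α P ^ k := by
  induction k with
  | zero => rw [zero_smul, pow_zero]; exact ⟨g0_zero, uu_zero⟩
  | succ k ih =>
    rw [succ_nsmul, pow_succ, ← ih.2]
    exact D.add ih.1 hP

variable {σ : K →+* K} {τ : κ →+* κ} {φ : W.Point →+ W.Point} (hφ : IsMap σ φ)
  (h1 : ∀ z, σ z ∈ O ↔ z ∈ O)
  (h2 : ∀ z (h : z ∈ O) (h' : σ z ∈ O), ev ⟨σ z, h'⟩ = τ (ev ⟨z, h⟩)) (h3 : τ α = α)
include hφ h1 h2 h3

theorem Nd.map {P : W.Point} (hP : G0 ev P) : G0 ev (φ P) ∧ uu ev α (φ P) = τ (uu ev α P) := by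
  by_cases h0 : P = 0
  · rw [h0, map_zero, uu_zero, map_one]
    exact ⟨g0_zero, rfl⟩
  have key : ∀ (z w : K) (e : w = σ z) (h : z ∈ O) (h' : w ∈ O), ev ⟨w, h'⟩ = τ (ev ⟨z, h⟩) := by
    rintro z _ rfl h h'
    exact h2 z h h'
  by_cases hx : xc P ∈ O
  · have hx' : xc (φ P) ∈ O := hφ.x P ▸ (h1 _).2 hx
    refine ⟨Or.inr fun h => ?_, ?_⟩
    · rw [key _ _ (hφ.x P) hx h]
      exact (_root_.map_ne_zero τ).2 (hP.resolve_left h0 hx)
    · rw [uu, uu, dif_pos ⟨hφ.ne P h0, hx', D.yc_mem hx'⟩, dif_pos ⟨h0, hx, D.yc_mem hx⟩,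
        key _ _ (hφ.x P) hx hx', key _ _ (hφ.y P) (D.yc_mem hx) (D.yc_mem hx'), map_div₀, map_sub,
        map_add, map_mul, h3]
  · have hx' : xc (φ P) ∉ O := fun h => hx ((h1 _).1 (hφ.x P ▸ h))
    refine ⟨Or.inr fun h => absurd h hx', ?_⟩
    rw [uu, uu, dif_neg fun h => hx' h.2.1, dif_neg fun h => hx h.2.1, map_one]

omit D hφ h1 h2 h3 in
variable (ev) in
/-- `z` is integral with residue `c`. -/
def nodc_Rd (z : K) (c : κ) : Prop := ∃ h : z ∈ O, ev ⟨z, h⟩ = c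

omit D hφ h1 h2 h3 in
theorem nodc_add {z w : K} {c d : κ} (h : nodc_Rd ev z c) (h' : nodc_Rd ev w d) :
    nodc_Rd ev (z + w) (c + d) := by
  obtain ⟨hz, rfl⟩ := h
  obtain ⟨hw, rfl⟩ := h'
  exact ⟨O.add_mem hz hw, map_add ev ⟨z, hz⟩ ⟨w, hw⟩⟩

omit D hφ h1 h2 h3 in
theorem nodc_mul {z w : K} {c d : κ} (h : nodc_Rd ev z c) (h' : nodc_Rd ev w d) :
    nodc_Rd ev (z * w) (c * d) := by
  obtain ⟨hz, rfl⟩ := h
  obtain ⟨hw, rfl⟩ := h'
  exact ⟨O.mul_mem hz hw, map_mul ev ⟨z, hz⟩ ⟨w, hw⟩⟩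

omit D hφ h1 h2 h3 in
theorem nodc_neg {z : K} {c : κ} (h : nodc_Rd ev z c) : nodc_Rd ev (-z) (-c) := by
  obtain ⟨hz, rfl⟩ := h
  exact ⟨O.neg_mem hz, map_neg ev ⟨z, hz⟩⟩

omit D hφ h1 h2 h3 in
theorem nodc_uniq {z w : K} {c d : κ} (h : nodc_Rd ev z c) (h' : nodc_Rd ev w d) (e : z = w) :
    c = d := by
  subst e
  obtain ⟨hz, rfl⟩ := h
  obtain ⟨hw, rfl⟩ := h'
  rfl

omit D hφ h1 h2 h3 in
theorem nodc_small {z w : K} (h : nodc_Rd ev z 0) (h' : w ∈ O) : nodc_Rd ev (z * w) 0 := by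
  simpa using nodc_mul h ⟨h', rfl⟩

omit hφ h1 h2 h3 in
theorem Nd.nodc_sq {z w : K} {c : κ} (h : nodc_Rd ev w c) (e : z ^ 2 = w) :
    ∃ d, nodc_Rd ev z d ∧ d ^ 2 = c := by
  have hz : z ∈ O := D.sq_mem (e ▸ h.1)
  have h0 : nodc_Rd ev z _ := ⟨hz, rfl⟩
  exact ⟨_, h0, by rw [sq]; exact nodc_uniq (nodc_mul h0 h0) h (by rw [← e, sq])⟩

omit hφ h1 h2 h3 in
theorem Nd.nodc_sq0 {z w : K} (h : nodc_Rd ev w 0) (e : z ^ 2 = w) : nodc_Rd ev z 0 := by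
  obtain ⟨d, h1, h2⟩ := D.nodc_sq h e
  rwa [pow_eq_zero_iff two_ne_zero |>.1 h2] at h1

omit hφ h1 h2 h3 in
theorem Nd.nodc_inv {z : K} (h : z ∉ O) : nodc_Rd ev z⁻¹ 0 := by
  refine ⟨(D.val z).resolve_left h, ?_⟩
  by_contra hne
  have := D.loc _ hne
  rw [inv_inv] at this
  exact h this

omit hφ h1 h2 h3 in
theorem Nd.nodc_a : (a : K) ≠ 0 := fun h => D.sh.Δ (by
  simp [WeierstrassCurve.Δ, b₂, b₄, b₆, b₈, D.sh.a₁, D.sh.a₃, D.a₄, D.a₆, h])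

omit D hφ h1 h2 h3 in
theorem nodc_not {P : W.Point} (h : ¬ G0 ev P) : P ≠ 0 ∧ nodc_Rd ev (xc P) 0 := by
  refine ⟨fun e => h (Or.inl e), ?_⟩
  by_contra h'
  exact h (Or.inr fun hx e => h' ⟨hx, e⟩)

theorem Nd.nodc_g0 {P : W.Point} (h : G0 ev P) : G0 ev (φ P - P) := by
  rw [sub_eq_add_neg]
  exact (D.add (D.map hφ h1 h2 h3 h).1 (g0_neg h)).1

theorem Nd.nodc_two {P : W.Point} (hP : P ≠ 0) (hx : xc P / a ∈ O) : G0 ev (φ P - P) := by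
  obtain ⟨T, hT, tx, ty⟩ := exists_pt D.sh.a₁ D.sh.a₃ D.sh.Δ (x := 0) (y := 0)
    (by rw [eval_cub, D.a₆]; ring)
  have e1 : φ T = T := pt_ext (hφ.ne T hT) hT (by rw [hφ.x, tx, map_zero])
    (by rw [hφ.y, ty, map_zero])
  have e2 : φ P - P = φ (P + T) - (P + T) := by rw [map_add, e1]; abel
  rw [e2]
  refine D.nodc_g0 hφ h1 h2 h3 ?_
  by_contra hg
  obtain ⟨hR, hr⟩ := nodc_not hg
  obtain ⟨l, m, -, a2, -, -, v2, -⟩ := (add3_iff D.sh.a₁ D.sh.a₃ hP hT (neg_ne_zero.2 hR)).1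
    (add_neg_cancel (P + T))
  rw [xc_neg, tx, D.a₄] at v2
  rw [tx, ty] at a2
  have ha := D.nodc_a
  have e3 : xc (P + T) * (xc P / a) = b := by
    field_simp
    linear_combination v2 + 2 * l * a2
  have := nodc_uniq (nodc_small hr hx) ⟨b.2, D.eb⟩ e3
  exact pow_ne_zero 2 D.ne (neg_eq_zero.1 this.symm)

/-- The component group is fixed.  Let `P = (x, y)` not be in `G0`.  If `x / a ∈ O` put
`T = (0, 0)` (`exists_pt`), `φ T = T`; if `P ≠ T` then `xc (P + T) * x = a b` (`add3_iff`), so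
`P + T` is in `G0` and `φ P - P = φ (P + T) - (P + T)`.  Otherwise `a / x` reduces to `0`,
`s = y / x` has `s ^ 2 = (1 - a / x) (x - b)`, so it reduces to `± α`, and so does `σ s`, to the
same value.  If `φ P + (-P) + R = 0`, `R ≠ 0` and `xc R` reduces to `0`, the line `l x + m` has
`l ∈ O` (from `l ^ 2`), `m / x`, `m / σ x ∈ O` have squares `xc R * σ x / x`, `xc R * x / σ x`, so
reduce to `0`; then `l` reduces to both `-s` and `s`, which is absurd. -/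
theorem Nd.comp (ha : σ a = a) (hb : σ b = b) (hv : ∀ z, z ≠ 0 → σ z / z ∈ O ∧ z / σ z ∈ O)
    (P : W.Point) : G0 ev (φ P - P) := by
  by_cases hg : G0 ev P
  · exact D.nodc_g0 hφ h1 h2 h3 hg
  obtain ⟨hP, hx⟩ := nodc_not hg
  by_cases hxa : xc P / a ∈ O
  · exact D.nodc_two hφ h1 h2 h3 hP hxa
  have x0 : xc P ≠ 0 := fun e => hxa (by rw [e, zero_div]; exact O.zero_mem)
  have x1 : σ (xc P) ≠ 0 := (map_ne_zero σ).2 x0
  have r1 := D.nodc_inv hxa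
  rw [inv_div] at r1
  have r2 := nodc_mul (nodc_add (⟨O.one_mem, map_one ev⟩ : nodc_Rd ev 1 1) (nodc_neg r1))
    (nodc_add hx (nodc_neg (⟨b.2, D.eb⟩ : nodc_Rd ev (b : K) (-α ^ 2))))
  have hy := yc_sq D.sh.a₁ D.sh.a₃ hP
  rw [eval_cub, D.a₂, D.a₄, D.a₆] at hy
  obtain ⟨ε, r3, hε⟩ := D.nodc_sq (z := yc P / xc P) r2 (by
    field_simp
    linear_combination hy)
  have hε' : ε ^ 2 = α ^ 2 := by rw [hε]; ring
  have tε : τ ε = ε := by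
    rcases sq_eq_sq_iff_eq_or_eq_neg.1 hε' with rfl | rfl
    · exact h3
    · rw [map_neg, h3]
  have r4 : nodc_Rd ev (σ (yc P / xc P)) ε := by
    obtain ⟨hs, e⟩ := r3
    exact ⟨(h1 _).2 hs, by rw [h2 _ hs, e, tε]⟩
  by_contra hq
  obtain ⟨hR, hr⟩ := nodc_not hq
  obtain ⟨l, m, a1, a2, -, v1, -, v3⟩ := (add3_iff D.sh.a₁ D.sh.a₃ (hφ.ne P hP) (neg_ne_zero.2 hP)
    (neg_ne_zero.2 hR)).1 (by abel)
  rw [xc_neg, xc_neg, hφ.x] at v1 v3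
  rw [hφ.x, hφ.y] at a1
  rw [xc_neg, yc_neg D.sh.a₁ D.sh.a₃] at a2
  rw [D.a₆] at v3
  rw [D.a₂] at v1
  have hl : l ∈ O := D.sq_mem (by
    rw [show l ^ 2 = σ (xc P) + xc P + xc (φ P - P) - (a + b) by linear_combination -v1]
    exact O.sub_mem (O.add_mem (O.add_mem ((h1 _).2 hx.1) hx.1) hr.1) (O.add_mem a.2 b.2))
  have m1 := D.nodc_sq0 (z := m / xc P) (nodc_small hr (hv _ x0).1) (by
    field_simp
    linear_combination -v3)
  have m2 := D.nodc_sq0 (z := m / σ (xc P)) (nodc_small hr (hv _ x0).2) (by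
    field_simp
    linear_combination -v3)
  have u1 := nodc_uniq (nodc_add ⟨hl, rfl⟩ m1) (nodc_neg r3) (by
    field_simp
    linear_combination -a2)
  have u2 := nodc_uniq (nodc_add ⟨hl, rfl⟩ m2) r4 (by
    rw [map_div₀]
    field_simp
    linear_combination -a1)
  have : ε = 0 := (mul_eq_zero.1 (show 2 * ε = 0 by linear_combination u1 - u2)).resolve_left D.two
  exact pow_ne_zero 2 D.ne (by rw [← hε', this]; ring)

/-- For `R = φ P - P`: `uu (φ R) = uu R ^ Q = uu (Q • R)`, so `uu (φ R - Q • R) = 1`. -/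
theorem Nd.frob (ha : σ a = a) (hb : σ b = b) (hv : ∀ z, z ≠ 0 → σ z / z ∈ O ∧ z / σ z ∈ O)
    {Q : ℕ} (hτ : ∀ z, τ z = z ^ Q) {n : ℕ} (hn : (n : κ) ≠ 0) {P : W.Point} (h : n • P = 0) :
    φ (φ P) - ((Q : ℤ) + 1) • φ P + (Q : ℤ) • P = 0 := by
  have hR := D.comp hφ h1 h2 h3 ha hb hv P
  obtain ⟨g1, u1⟩ := D.map hφ h1 h2 h3 hR
  obtain ⟨g2, u2⟩ := D.nodb_nsmul hR Q
  obtain ⟨g3, u3⟩ := D.add g1 (g0_neg g2)
  have u4 := (D.add g2 (g0_neg g2)).2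
  rw [add_neg_cancel, uu_zero, u2, ← hτ, ← u1, ← u3] at u4
  have hn' : n • (φ P - P) = 0 := by rw [smul_sub, ← map_nsmul, h, map_zero, sub_self]
  have := D.inj g3 u4.symm hn (by
    rw [smul_add, smul_neg, ← map_nsmul, smul_comm, hn', map_zero, smul_zero, neg_zero, add_zero])
  rw [← this, map_sub, add_smul, one_smul, natCast_zsmul, natCast_zsmul, smul_sub]
  abel

end

end Pool.Agent.Lib.MP_16ef92_ag.ND
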