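import Mathlib
import Pool.Agent.Lib.MP_16ef92_ag.GV.Wt0
import Pool.Agent.Lib.MP_16ef92_ag.GV.Kr

set_option autoImplicit false
set_option linter.unusedSectionVars false
set_option linter.unusedVariables false

namespace Pool.Agent.Lib.MP_16ef92_ag.ND

noncomputable section

open Polynomial Module GV

variable {A : Type} [Ring A]

/-- `z` satisfies every integral relation of `t`. -/
def Rt (t : A) (z : ℂ) : Prop := ∀ P : ℤ[X], aeval t P = 0 → aeval z P = 0

/-- Complex points extend along integral homomorphisms. -/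
theorem rta_ext {D R : Type} [CommRing D] [CommRing R] [Algebra D R] [Algebra.IsIntegral D R]
    (f : D →+* ℂ) (hf : ∀ x, algebraMap D R x = 0 → f x = 0) :
    ∃ g : R →+* ℂ, ∀ x, g (algebraMap D R x) = f x := by
  have := RingHom.ker_isPrime f
  obtain ⟨Q, -, hQ, e⟩ := Ideal.exists_ideal_over_prime_of_isIntegral (RingHom.ker f)
    (⊥ : Ideal R) hf
  have := hQ.comap (algebraMap D R)
  let f' : D ⧸ Q.comap (algebraMap D R) →+* ℂ := Ideal.Quotient.lift _ f fun x hx => (e ▸ hx :)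
  let _ := f'.toAlgebra
  have h1 : IsTorsionFree (D ⧸ Q.comap (algebraMap D R)) ℂ :=
    isTorsionFree_iff_algebraMap_injective.2 ((Ideal.injective_lift_iff _).2 e.symm)
  have h2 : IsTorsionFree (D ⧸ Q.comap (algebraMap D R)) (R ⧸ Q) :=
    isTorsionFree_iff_algebraMap_injective.2 Ideal.algebraMap_quotient_injective
  let ψ : (R ⧸ Q) →ₐ[D ⧸ Q.comap (algebraMap D R)] ℂ := IsAlgClosed.lift
  exact ⟨ψ.toRingHom.comp (Ideal.Quotient.mk Q), fun x => ψ.commutes (Ideal.Quotient.mk _ x)⟩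

/-- Pass to the commutative ring `R = Subring.closure (m '' S)` as in `wt_end`; it is integral over
`ℤ`, so over `ℤ[X]` acting through the product; take a prime over the kernel of `aeval z`
(`Ideal.exists_ideal_over_prime_of_isIntegral`) and embed the quotient (`IsAlgClosed.lift` over
`ℤ[X] ⧸ ker`). -/
theorem rt_prod {ι : Type} (S : Finset ι) (m : ι → A)
    (hc : (S : Set ι).Pairwise (Function.onFun Commute m)) (hm : ∀ i ∈ S, IsIntegral ℤ (m i))
    {z : ℂ} (hz : Rt (S.noncommProd m hc) z) :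
    ∃ w : ι → ℂ, (∀ i ∈ S, Rt (m i) (w i)) ∧ z = ∏ i ∈ S, w i := by
  classical
  let R := Subring.closure (m '' S)
  have hR : IsMulCommutative R := Subring.isMulCommutative_closure (by
    rintro _ ⟨i, hi, rfl⟩ _ ⟨j, hj, rfl⟩
    by_cases h : i = j
    · rw [h]
    · exact hc hi hj h)
  let _ : CommRing R := { (inferInstance : Ring R) with mul_comm := hR.is_comm.comm }
  let y : ι → R := fun i => if h : i ∈ S then ⟨m i, Subring.subset_closure ⟨i, h, rfl⟩⟩ else 0
  have hy : ∀ i ∈ S, (y i : A) = m i := fun i h => by simp [y, h]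
  have hp : ((∏ i ∈ S, y i : R) : A) = S.noncommProd m hc := by
    rw [← Finset.noncommProd_eq_prod]
    exact (Finset.map_noncommProd S y (fun _ _ _ _ _ => Commute.all _ _) R.subtype).trans
      (Finset.noncommProd_congr rfl hy _)
  have ha : ∀ (r : R) (P : ℤ[X]), ((aeval r P : R) : A) = aeval (r : A) P := fun r P =>
    (aeval_algHom_apply R.subtype.toIntAlgHom r P).symm
  have hi : ∀ r : R, IsIntegral ℤ r := fun ⟨r, hr⟩ => by
    induction hr using Subring.closure_induction with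
    | mem x hx =>
      obtain ⟨i, hi, rfl⟩ := hx
      exact (isIntegral_algHom_iff R.subtype.toIntAlgHom Subtype.val_injective).1 (hm i hi)
    | zero => exact isIntegral_zero
    | one => exact isIntegral_one
    | add _ _ _ _ h1 h2 => exact h1.add h2
    | neg _ _ h1 => exact h1.neg
    | mul _ _ _ _ h1 h2 => exact h1.mul h2
  let _ : Algebra ℤ[X] R := (aeval (R := ℤ) (∏ i ∈ S, y i)).toRingHom.toAlgebra
  have : Algebra.IsIntegral ℤ[X] R := ⟨fun r => (hi r).tower_top⟩
  obtain ⟨g, hg⟩ := rta_ext (R := R) (aeval (R := ℤ) z).toRingHom fun P hP =>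
    hz P (by rw [← hp, ← ha]; exact congrArg Subtype.val hP)
  refine ⟨fun i => g (y i), fun i h P hP => ?_, ?_⟩
  · have h1 : aeval (y i) P = 0 := Subtype.ext (by rw [ha, hy i h]; exact hP)
    exact (aeval_algHom_apply g.toIntAlgHom (y i) P).trans (by rw [h1, map_zero])
  · rw [← map_prod]
    exact ((aeval_X z).symm.trans (hg X).symm).trans (congrArg g (aeval_X _))

/-- If the sum of the two kernels in `ℤ[X]` misses the nonzero integers, take a prime above it
that misses them too (`Ideal.exists_le_prime_disjoint`) and embed the quotient into `ℂ`. -/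
theorem rt_cop {A' : Type} [Ring A'] {t : A} {t' : A'} (ht : IsIntegral ℤ t)
    (h : ∀ z, Rt t z → ¬ Rt t' z) :
    ∃ (P : ℤ[X]) (c : ℕ), c ≠ 0 ∧ aeval t P = 0 ∧ aeval t' P = c := by
  by_contra h0
  let I : Ideal ℤ[X] := RingHom.ker (aeval t) ⊔ RingHom.ker (aeval t')
  obtain ⟨J, hJ, hIJ, hd⟩ := I.exists_le_prime_disjoint
    ((nonZeroDivisors ℤ).map (Int.castRingHom ℤ[X])) (Set.disjoint_left.2 (by
      rintro _ hn ⟨n, hn0, rfl⟩
      obtain ⟨P, hP, P', hP', e⟩ := Submodule.mem_sup.1 hn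
      have e1 : aeval t P = 0 := hP
      have e2 : aeval t' P = n := by
        have := congrArg (aeval t') e
        rwa [map_add, show aeval t' P' = 0 from hP', add_zero, eq_intCast, map_intCast] at this
      obtain ⟨c, rfl | rfl⟩ := n.eq_nat_or_neg
      · exact h0 ⟨P, c, by simpa using nonZeroDivisors.ne_zero hn0, e1, by simpa using e2⟩
      · exact h0 ⟨-P, c, by simpa using nonZeroDivisors.ne_zero hn0, by rw [map_neg, e1, neg_zero],
          by rw [map_neg, e2, Int.cast_neg, neg_neg, Int.cast_natCast]⟩))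
  let π := Ideal.Quotient.mkₐ ℤ J
  have hπ : ∀ P ∈ I, aeval (π X) P = 0 := fun P hP => by
    rw [aeval_algHom_apply, aeval_X_left_apply]
    exact Ideal.Quotient.eq_zero_iff_mem.2 (hIJ hP)
  have hz : CharZero (ℤ[X] ⧸ J) := charZero_of_inj_zero fun n hn => by
    by_contra h
    have h1 : (n : ℤ[X]) ∈ J := Ideal.Quotient.eq_zero_iff_mem.1 (by simpa using hn)
    exact Set.disjoint_left.1 hd h1 ⟨n, mem_nonZeroDivisors_of_ne_zero (by simpa), by simp⟩
  let B := integralClosure ℤ (ℤ[X] ⧸ J)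
  obtain ⟨p, hp, hp0⟩ := ht
  have hi : π X ∈ B := ⟨p, hp, hπ p (Ideal.mem_sup_left hp0)⟩
  have : Algebra.IsAlgebraic ℤ B := Algebra.IsIntegral.isAlgebraic
  let ψ : B →ₐ[ℤ] ℂ := IsAlgClosed.lift
  have key : ∀ P ∈ I, aeval (ψ ⟨_, hi⟩) P = 0 := fun P hP => by
    have e : aeval (⟨_, hi⟩ : B) P = 0 :=
      Subtype.ext ((aeval_algHom_apply B.val (⟨π X, hi⟩ : B) P).symm.trans (hπ P hP) :)
    rw [aeval_algHom_apply, e, map_zero]
  exact h _ (fun P hP => key P (Ideal.mem_sup_left hP)) fun P hP => key P (Ideal.mem_sup_right hP)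

theorem rtb_int {ι : Type} (S : Finset ι) (m : ι → A)
    (hc : (S : Set ι).Pairwise (Function.onFun Commute m)) (hm : ∀ i ∈ S, IsIntegral ℤ (m i)) :
    IsIntegral ℤ (S.noncommProd m hc) := by
  classical
  let B := Subring.closure (m '' S)
  have hB : IsMulCommutative B := Subring.isMulCommutative_closure (by
    rintro _ ⟨i, hi, rfl⟩ _ ⟨j, hj, rfl⟩
    by_cases h : i = j
    · rw [h]
    · exact hc hi hj h)
  let _ : CommRing B := { (inferInstance : Ring B) with mul_comm := hB.is_comm.comm }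
  let z : ι → B := fun i => if h : i ∈ S then ⟨m i, Subring.subset_closure ⟨i, h, rfl⟩⟩ else 0
  have hz : ∀ i ∈ S, (z i : A) = m i := fun i h => by simp [z, h]
  have h1 : IsIntegral ℤ (∏ i ∈ S, z i) := IsIntegral.prod _ fun i hi =>
    (isIntegral_algHom_iff B.subtype.toIntAlgHom Subtype.val_injective).1 (by
      change IsIntegral ℤ (z i : A)
      rw [hz i hi]
      exact hm i hi)
  have h2 := h1.map B.subtype.toIntAlgHom
  rw [← Finset.noncommProd_eq_prod] at h2
  have h3 := Finset.map_noncommProd S z (fun _ _ _ _ _ => Commute.all _ _) B.subtype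
  exact (h3.trans (Finset.noncommProd_congr rfl hz _)) ▸ h2

variable {R ι κ : Type} [CommRing R] [Fintype ι] [Fintype κ] (e : κ ≃ (ι → Fin 2))

theorem rtb_quad [DecidableEq ι] (i : ι) {g : End R (Fin 2 → R)} {t Q : ℤ}
    (h : ∀ y, g (g y) - t • g y + Q • y = 0) : IsIntegral ℤ (sl e i g) ∧
      ∀ w : ℂ, Rt (sl e i g) w → w * w - t * w + Q = 0 := by
  have e1 : g ^ 2 - (t : End R (Fin 2 → R)) * g + (Q : End R (Fin 2 → R)) = 0 :=
    LinearMap.ext fun y => by simpa [pow_two] using h y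
  have e2 : aeval (sl e i g) (X ^ 2 - C t * X + C Q : ℤ[X]) = 0 := by
    simpa using congrArg (sl e i) e1
  refine ⟨⟨_, ?_, e2⟩, fun w hw => by simpa [pow_two] using hw _ e2⟩
  monicity!

/-- Weights: the roots for `kr e f'` have norm `Q ^ card ι`, those for `kr e f` have norm
`Q ^ (card ι - 1)` or `Q ^ (card ι + 1)` (`kr_noncommProd`, `rt_prod`, `wt_normSq`, `sl`). -/
theorem kr_cop {f f' : ι → End R (Fin 2 → R)} {Q : ℤ} (hQ : 1 < Q) (i₀ : ι)
    (h0 : ∀ y, f i₀ (f i₀ y) - (Q + 1) • f i₀ y + Q • y = 0)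
    (h1 : ∀ i, i ≠ i₀ → ∃ t : ℤ, t ^ 2 ≤ 4 * Q ∧ ∀ y, f i (f i y) - t • f i y + Q • y = 0)
    (h2 : ∀ i, ∃ t : ℤ, t ^ 2 ≤ 4 * Q ∧ ∀ y, f' i (f' i y) - t • f' i y + Q • y = 0) :
    ∃ (P : ℤ[X]) (c : ℕ), c ≠ 0 ∧ aeval (kr e f) P = 0 ∧ aeval (kr e f') P = c := by
  classical
  have hf : ∀ i ∈ (Finset.univ : Finset ι), IsIntegral ℤ (sl e i (f i)) := fun i _ => by
    by_cases hi : i = i₀
    · subst hi
      exact (rtb_quad e i h0).1
    · obtain ⟨t, -, ht⟩ := h1 i hi
      exact (rtb_quad e i ht).1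
  have hf' : ∀ i ∈ (Finset.univ : Finset ι), IsIntegral ℤ (sl e i (f' i)) := fun i _ => by
    obtain ⟨t, -, ht⟩ := h2 i
    exact (rtb_quad e i ht).1
  rw [kr_noncommProd, kr_noncommProd]
  refine rt_cop (rtb_int _ _ _ hf) fun z hz hz' => ?_
  obtain ⟨w, hw, e1⟩ := rt_prod _ _ _ hf hz
  obtain ⟨w', hw', e2⟩ := rt_prod _ _ _ hf' hz'
  have hQ' : (1 : ℝ) < Q := by exact_mod_cast hQ
  have a1 : ∀ i ∈ Finset.univ.erase i₀, Complex.normSq (w i) = Q := fun i hi => by
    obtain ⟨t, ht, ht'⟩ := h1 i (Finset.ne_of_mem_erase hi)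
    exact wt_normSq ht ((rtb_quad e i ht').2 _ (hw i (Finset.mem_univ i)))
  have a2 : ∀ i, Complex.normSq (w' i) = Q := fun i => by
    obtain ⟨t, ht, ht'⟩ := h2 i
    exact wt_normSq ht ((rtb_quad e i ht').2 _ (hw' i (Finset.mem_univ i)))
  have a3 := congrArg Complex.normSq (e1.symm.trans e2)
  rw [map_prod, map_prod, ← Finset.mul_prod_erase _ _ (Finset.mem_univ i₀),
    ← Finset.mul_prod_erase _ _ (Finset.mem_univ i₀), Finset.prod_congr rfl a1,
    Finset.prod_congr rfl fun i _ => a2 i, a2] at a3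
  have a4 := mul_right_cancel₀ (Finset.prod_pos fun _ _ => by linarith).ne' a3
  have a5 : (w i₀ - 1) * (w i₀ - Q) = 0 := by
    have := (rtb_quad e i₀ h0).2 _ (hw i₀ (Finset.mem_univ _))
    push_cast at this
    linear_combination this
  rcases mul_eq_zero.1 a5 with a6 | a6
  · rw [sub_eq_zero.1 a6, map_one] at a4
    linarith
  · rw [sub_eq_zero.1 a6, Complex.normSq_intCast] at a4
    nlinarith

end

end Pool.Agent.Lib.MP_16ef92_ag.ND
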