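import Mathlib
import Pool.Agent.Lib.MP_16ef92_ag.ND.Nod
import Pool.Agent.Lib.MP_16ef92_ag.ND.Rt
import Pool.Agent.Lib.MP_16ef92_ag.GV.TMl
import Pool.Agent.Lib.MP_16ef92_ag.ET.W2

set_option autoImplicit false
set_option linter.unusedSectionVars false
set_option linter.unusedVariables false

namespace Pool.Agent.Lib.MP_16ef92_ag.ND

noncomputable section

open Polynomial Module AL AL.EC GV

variable {F : Type} [Field F] [Clos F] [Fintype F] [hq : Fact (Odd (Fintype.card F))]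
  {O : ValuationSubring (Om F)} {l : ℕ} [Fact l.Prime]

/-- `Over.val_pow`, `st_pl`. -/
theorem st_val {x : Option (kk F)} (hO : Over O x) {f : Gam F} (hf : f ∈ St O) (z : Om F) :
    O.valuation (f z) = O.valuation z := by
  by_cases h0 : z = 0
  · rw [h0, map_zero]
  obtain ⟨m, j, hm, e⟩ := hO.val_pow h0
  have hp : O.valuation (pl x) ^ j ≠ 0 := zpow_ne_zero _ hO.val_ne
  have h1 : O.valuation (z ^ m / pl x ^ j) = 1 := by
    rw [map_div₀, map_pow, map_zpow₀, e, div_self hp]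
  have h2 := (O.valuation_le_one_iff _).2 ((hf _).2 ((O.valuation_le_one_iff _).1 h1.le))
  have h3 := (O.valuation_le_one_iff _).2 ((hf (z ^ m / pl x ^ j)⁻¹).2
    ((O.valuation_le_one_iff _).1 (by rw [map_inv₀, h1, inv_one])))
  have h4 : O.valuation (f (z ^ m / pl x ^ j)) ≠ 0 := by
    rw [Valuation.ne_zero_iff, _root_.map_ne_zero, ← O.valuation.ne_zero_iff, h1]
    exact one_ne_zero
  rw [map_inv₀, map_inv₀, inv_le_one₀ (zero_lt_iff.2 h4)] at h3
  have h5 := le_antisymm h2 h3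
  rw [map_div₀, map_pow, map_zpow₀, st_pl hO hf, map_div₀, map_pow, map_zpow₀,
    div_eq_one_iff_eq hp, ← e] at h5
  exact (pow_left_inj₀ zero_le zero_le hm.ne').1 h5

theorem kila_tau (g : Gam F) : ∃ τ : kk F →+* kk F, ∀ z, (τ z : Om F) = g z :=
  ⟨⟨⟨⟨ck g, Subtype.ext (by simp [ck_val])⟩, fun a b => Subtype.ext (by simp [ck_val])⟩,
    Subtype.ext (by simp [ck_val]), fun a b => Subtype.ext (by simp [ck_val])⟩, fun _ => rfl⟩

theorem kila_fix {g : Gam F} {Q : ℕ} (hQ : Fr g Q) {c : kk F} (hc : c ^ Q = c) (p : F[X]) :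
    aeval c p ^ Q = aeval c p := by
  obtain ⟨τ, hτ⟩ := kila_tau g
  have h0 : ∀ z, τ z = z ^ Q := fun z => Subtype.ext (by rw [hτ, hQ]; simp)
  let t : kk F →ₐ[F] kk F := { τ with
    commutes' := fun a => Subtype.ext (by
      have := g.commutes (algebraMap F (RatFunc F) a)
      rw [← IsScalarTower.algebraMap_apply] at this
      exact (hτ _).trans this) }
  exact (h0 _).symm.trans
    ((aeval_algHom_apply t c p).symm.trans (congrArg (aeval · p) ((h0 c).trans hc)))

/-- The square of a Frobenius element at a node.  Use `Nd.frob` with `ev` from `e7_ev` (compare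
`exists_spec` in `AL/E7`), `σ = f ^ 2`, `α ^ 2 = -aeval c (D * B)`; `c ^ Q = c` by `fix_of_st`, so
`α ^ Q = ± α` and `α ^ (Q ^ 2) = α`; finish with `e6b_char` as in `PGAt.frobT`. -/
theorem node_frob (hF : (l : F) ≠ 0) {A B D : F[X]} (h0 : A * B * (A - B) * D ≠ 0)
    (T : TM l (curve A B D)) {c : kk F} (hA : aeval c A = 0) (hB : aeval c (D * B) ≠ 0)
    (hO : Over O (some c)) {f : Gam F} (hf : f ∈ St O) {r : ℕ}
    (hQ : Fr f (Fintype.card F ^ r)) (y : Fin 2 → ℤ_[l]) :
    T.ro (f ^ 2) (T.ro (f ^ 2) y) - (((Fintype.card F ^ (r * 2) : ℕ) : ℤ) + 1) • T.ro (f ^ 2) y +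
      ((Fintype.card F ^ (r * 2) : ℕ) : ℤ) • y = 0 := by
  obtain ⟨ev, he⟩ := e7_ev hO
  have hu : ∀ (z : O.toSubring) (d : kk F), O.valuation ((z : Om F) - d) < 1 → ev z = d :=
    fun z d h => const_eq O (by
      have := Valuation.map_sub_lt _ h (he z)
      rwa [sub_sub_sub_cancel_left] at this)
  have hp : ∀ p : F[X], ∃ h : aeval (tt F) p ∈ O.toSubring, ev ⟨_, h⟩ = aeval c p := fun p => by
    have h1 := poly_sub O hO (p.map (algebraMap F (kk F)))
    rw [aeval_map_algebraMap, eval_map_algebraMap] at h1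
    have h2 := Valuation.map_add_le O.valuation h1.le (val_const_le O (aeval c p))
    rw [sub_add_cancel] at h2
    exact ⟨(O.valuation_le_one_iff _).1 h2, hu _ _ h1⟩
  obtain ⟨ha, ea⟩ := hp (D * A)
  obtain ⟨hb, eb⟩ := hp (D * B)
  have hk : IsAlgClosed (kk F) := inferInstance
  obtain ⟨α, hα⟩ := IsAlgClosed.exists_pow_nat_eq (-aeval c (D * B)) two_pos
  have hα0 : α ≠ 0 := fun e => hB (by rw [e] at hα; simpa using hα.symm)
  have N : Nd ev ((curve A B D).baseChange (Om F)).toAffine ⟨_, ha⟩ ⟨_, hb⟩ α := by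
    refine ⟨O.mem_or_inv_mem, fun z hz => ?_, (sh_curve h0).map _, ?_, ?_, by simp [curve], ?_,
      ?_, hα0, fun e => two_ne (F := F) (congrArg Subtype.val e)⟩
    · refine (O.valuation_le_one_iff _).1 ?_
      rw [map_inv₀, val_one_of_sub O (val_const O hz) (he z), inv_one]
    · simp only [← rf_eq]
      simp [curve]
    · simp only [← rf_eq]
      simp [curve]
    · rw [ea, map_mul, hA, mul_zero]
    · rw [eb, hα, neg_neg]
  have hf2 : f ^ 2 ∈ St O := pow_mem hf 2
  have hQ2 : Fr (f ^ 2) (Fintype.card F ^ (r * 2)) := pow_mul (Fintype.card F) r 2 ▸ hQ.pow 2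
  obtain ⟨τ, hτ⟩ := kila_tau (f ^ 2)
  have hτ' : ∀ z, τ z = z ^ Fintype.card F ^ (r * 2) := fun z =>
    Subtype.ext (by rw [hτ, hQ2]; simp)
  have h3 : τ α = α := by
    obtain ⟨τ₁, hτ₁⟩ := kila_tau f
    have h4 : ∀ z, τ₁ z = z ^ Fintype.card F ^ r := fun z => Subtype.ext (by rw [hτ₁, hQ]; simp)
    have h5 : τ₁ α ^ 2 = α ^ 2 := by
      rw [← map_pow, hα, map_neg, h4, kila_fix hQ (fix_of_st hO hf hQ)]
    have h6 : τ α = τ₁ (τ₁ α) := by rw [hτ', h4, h4, ← pow_mul, ← pow_two, ← pow_mul]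
    rcases sq_eq_sq_iff_eq_or_eq_neg.1 h5 with h | h
    · rw [h6, h, h]
    · rw [h6, h, map_neg, h, neg_neg]
  have key := fun (n : ℕ) (P : Pt (curve A B D)) (hP : l ^ n • P = 0) =>
    N.frob (isMap_pm (f ^ 2)) hf2 (fun z h h' => hu _ _ (by
      have h1 := st_lt hf2 (he ⟨z, h⟩)
      rwa [map_sub, ← hτ] at h1)) h3 (gam_ev _ _) (gam_ev _ _) (fun z hz => by
      have h1 := st_val hO hf2 z
      have h2 := O.valuation.ne_zero_iff.2 hz
      refine ⟨(O.valuation_le_one_iff _).1 ?_, (O.valuation_le_one_iff _).1 ?_⟩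
      · rw [map_div₀]
        exact (div_le_one₀ (zero_lt_iff.2 h2)).2 h1.le
      · rw [map_div₀]
        exact (div_le_one₀ (zero_lt_iff.2 (h2 ∘ h1.symm.trans))).2 h1.ge) hτ' (n := l ^ n)
      (by
        rw [← map_natCast (algebraMap F (kk F)), _root_.map_ne_zero]
        simpa using pow_ne_zero n hF) hP
  have := e6b_char (tm_ta T) (f := pm (f ^ 2)) (fun y n => congrFun (T.equiv (f ^ 2) y) n) key y
  rwa [Int.cast_smul_eq_zsmul, Int.cast_smul_eq_zsmul] at this

/-- The integer `c` lies in the left ideal generated by the geometric augmentation ideal. -/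
def Kil {M : Type} [Ring M] (ρ : Gam F →* M) (c : ℕ) : Prop :=
  (c : M) ∈ AddSubgroup.closure {a | ∃ (γ : Gam F) (r : ℕ) (g : Gam F),
    Fr γ (Fintype.card F ^ r) ∧ g ∈ Geo F ∧ a = ρ γ * (ρ g - 1)}

theorem kilb_geo {f f' : Gam F} {Q : ℕ} (hf : Fr f Q) (hf' : Fr f' Q) : f⁻¹ * f' ∈ Geo F :=
  mem_geo fun c => by rw [AlgEquiv.mul_apply, hf' c, ← hf c, inv_apply_self]

/-- `P (ρ f') - P (ρ f)` is a combination of the `ρ (f ^ k) * (ρ ((f ^ k)⁻¹ * f' ^ k) - 1)`. -/
theorem kil_of {M : Type} [Ring M] (ρ : Gam F →* M) {f f' : Gam F} {r : ℕ}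
    (hf : Fr f (Fintype.card F ^ r)) (hf' : Fr f' (Fintype.card F ^ r)) {P : ℤ[X]} {c : ℕ}
    (h : aeval (ρ f) P = 0) (h' : aeval (ρ f') P = c) : Kil ρ c := by
  rw [Kil, ← h', ← sub_zero (aeval (ρ f') P), ← h]
  clear h h'
  induction P using Polynomial.induction_on' with
  | add p q hp hq =>
    rw [map_add, map_add, add_sub_add_comm]
    exact add_mem hp hq
  | monomial k a =>
    rw [aeval_monomial, aeval_monomial, ← mul_sub, ← Algebra.smul_def]
    refine zsmul_mem (AddSubgroup.subset_closure ?_) a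
    refine ⟨f ^ k, r * k, (f ^ k)⁻¹ * f' ^ k, ?_, kilb_geo (hf.pow k) (hf'.pow k), ?_⟩
    · rw [pow_mul]
      exact hf.pow k
    · rw [mul_sub, ← map_mul, mul_inv_cancel_left, mul_one, map_pow, map_pow]

theorem kilb_frob {s : Gam F} (hs : Fr s (Fintype.card F)) (c : kk F) :
    ∃ (O : ValuationSubring (Om F)) (f : Gam F) (d : ℕ), Over O (some c) ∧ f ∈ St O ∧ 0 < d ∧
      Fr f (Fintype.card F ^ d) := by
  obtain ⟨O, hO⟩ := exists_over (some c)
  obtain ⟨d, hd, g, hg, h1, -⟩ := ET.exists_frob hs hO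
  exact ⟨O, _, d, hO, h1, hd, (hs.pow d).geo_mul hg⟩

/-- Compare Frobenius elements of the same degree at a root of `A i₀` and at a place where
everything is good (`ET.exists_frob`, powers, `node_frob`, `PGAt.frobT`, `kr_cop`, `kil_of`;
`simple_root` as in `exists_gi`). -/
theorem tm_kil (hF : (l : F) ≠ 0) {ι : Type} [Fintype ι] {A B C : ι → F[X]} {D : F[X]}
    (hsq : Squarefree ((∏ i, A i * B i * (A i - B i) * C i) * D)) {i₀ : ι}
    (hA : 0 < (A i₀).natDegree) {d : ℕ} (e : Fin d ≃ (ι → Fin 2))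
    (T : ∀ i, TM l (curve (A i) (B i) (D * C i))) {s : Gam F} (hs : Fr s (Fintype.card F)) :
    ∃ c, c ≠ 0 ∧ Kil (tm e T) c := by
  classical
  obtain ⟨c, hc⟩ := IsAlgClosed.exists_aeval_eq_zero (kk F) (A i₀)
    (natDegree_pos_iff_degree_pos.1 hA).ne'
  obtain ⟨c', hc'⟩ := exists_good hsq.ne_zero
  obtain ⟨O, f, a, hO, hf, ha, hQ⟩ := kilb_frob hs c
  obtain ⟨O', f', b, hO', hf', hb, hQ'⟩ := kilb_frob hs c'
  have hD : ∀ i, D * C i ≠ 0 := fun i => right_ne_zero_of_mul (tml_sq hsq i).ne_zero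
  have hr : 0 < a * b * 2 := by positivity
  have h1 : Fr (f ^ b) (Fintype.card F ^ (a * b)) := by
    rw [pow_mul]
    exact hQ.pow b
  have h2 : Fr ((f ^ b) ^ 2) (Fintype.card F ^ (a * b * 2)) := by
    rw [pow_mul]
    exact h1.pow 2
  have h3 : Fr (f' ^ (a * 2)) (Fintype.card F ^ (a * b * 2)) := by
    rw [mul_comm a b, mul_assoc, pow_mul (Fintype.card F)]
    exact hQ'.pow _
  have h4 : aeval c (B i₀ * (A i₀ - B i₀) * C i₀ *
      (∏ i ∈ Finset.univ.erase i₀, A i * B i * (A i - B i) * C i) * D) ≠ 0 := by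
    refine (simple_root (p := A i₀) ?_ hc).1
    rw [← Finset.mul_prod_erase _ _ (Finset.mem_univ i₀)] at hsq
    simpa only [mul_assoc] using hsq
  simp only [map_mul, map_prod, mul_ne_zero_iff, Finset.prod_ne_zero_iff] at h4 hc'
  obtain ⟨P, k, hk, e1, e2⟩ := kr_cop e (f := fun i => (T i).ro ((f ^ b) ^ 2))
    (f' := fun i => (T i).ro (f' ^ (a * 2))) (Q := ((Fintype.card F ^ (a * b * 2) : ℕ) : ℤ))
    (by exact_mod_cast Nat.one_lt_pow hr.ne' Fintype.one_lt_card) i₀
    (node_frob hF (tml_sq hsq i₀).ne_zero (T i₀) hc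
      (by simp only [map_mul, mul_ne_zero_iff]; exact ⟨⟨h4.2, h4.1.1.2⟩, h4.1.1.1.1⟩) hO
      (pow_mem hf b) h1)
    (fun i hi => PGAt.frobT (x := some c) (by
      simp only [PGAt, map_mul, mul_ne_zero_iff]
      exact (h4.1.2 i (Finset.mem_erase.2 ⟨hi, Finset.mem_univ i⟩)).1) (hD i) hF (T i) hO
      (pow_mem (pow_mem hf b) 2) hr h2)
    (fun i => PGAt.frobT (x := some c') (by
      simp only [PGAt, map_mul, mul_ne_zero_iff]
      exact (hc'.1 i (Finset.mem_univ i)).1) (hD i) hF (T i) hO' (pow_mem hf' _) hr h3)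
  exact ⟨k, hk, kil_of (tm e T) h2 h3 e1 e2⟩

/-- Invariants of a quotient.  Induct on a finite set `s` of indices: there is `w'` with
`w' - (∏ i ∈ s, c i) • w ∈ N` and `w' i = 0` for `i ∈ s`.  For the step, the set of families
`a : ∀ i, End` with `a w' ∈ N` ... more simply: for `a` in the closure for the index `i` there is
`v ∈ N` with `v i = redE a (w' i)` and `v j = 0` whenever `w' j = 0` (closure induction;
`redE_apply` gives additivity since reduction is onto). -/
theorem kil_inv {I : Type} [Fintype I] {d : I → ℕ}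
    {ρ : ∀ i, Gam F →* End ℤ_[l] (Fin (d i) → ℤ_[l])} {c : I → ℕ} (h : ∀ i, Kil (ρ i) (c i))
    {m : ℕ} (N : AddSubgroup (∀ i, Fin (d i) → ZMod (l ^ m)))
    (hN : ∀ γ r, Fr γ (Fintype.card F ^ r) → ∀ w ∈ N, (fun i => rn (ρ i) m γ (w i)) ∈ N)
    {w : ∀ i, Fin (d i) → ZMod (l ^ m)}
    (hw : ∀ g ∈ Geo F, (fun i => rn (ρ i) m g (w i)) - w ∈ N) : (∏ i, c i) • w ∈ N := by
  classical
  have key : ∀ s : Finset I, ∃ w', w' - (∏ i ∈ s, c i) • w ∈ N ∧ ∀ i ∈ s, w' i = 0 := by
    intro s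
    induction s using Finset.induction_on with
    | empty => exact ⟨w, by simp, by simp⟩
    | insert i s hi ih =>
      obtain ⟨w', h1, h2⟩ := ih
      have h3 : ∀ g ∈ Geo F, (fun i => rn (ρ i) m g (w' i)) - w' ∈ N := fun g hg => by
        have h4 := hN g 0 (fun z => by rw [pow_zero, pow_one, geo_fix hg]) _ h1
        have h5 := N.add_mem (N.sub_mem h4 h1) (N.nsmul_mem (hw g hg) (∏ i ∈ s, c i))
        refine (congrArg (· ∈ N) (funext fun j => ?_)).mp h5
        simp only [Pi.add_apply, Pi.sub_apply, Pi.smul_apply, map_sub, map_nsmul, smul_sub]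
        abel
      choose x hx using fun k => ZMod.ringHom_surjective (PadicInt.toZModPow (p := l) m) (w' i k)
      have hx' : w' i = fun k => PadicInt.toZModPow m (x k) := (funext hx).symm
      have h4 : ∀ a ∈ AddSubgroup.closure {a | ∃ (γ : Gam F) (r : ℕ) (g : Gam F),
          Fr γ (Fintype.card F ^ r) ∧ g ∈ Geo F ∧ a = ρ i γ * (ρ i g - 1)},
          ∃ v ∈ N, (∀ k, v i k = PadicInt.toZModPow m (a x k)) ∧ ∀ j, w' j = 0 → v j = 0 := by
        intro a ha
        induction ha using AddSubgroup.closure_induction with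
        | mem a ha =>
          obtain ⟨γ, r, g, hγ, hg, rfl⟩ := ha
          refine ⟨_, hN γ r hγ _ (h3 g hg), fun k => ?_, fun j hj => by simp [hj]⟩
          simp only [Pi.sub_apply, map_sub, hx', rn_apply, End.mul_apply, LinearMap.sub_apply,
            End.one_apply]
        | zero => exact ⟨0, N.zero_mem, fun k => by simp, fun _ _ => rfl⟩
        | add a b _ _ ha hb =>
          obtain ⟨v, h5, h6, h7⟩ := ha
          obtain ⟨v', h5', h6', h7'⟩ := hb
          exact ⟨v + v', N.add_mem h5 h5', fun k => by simp [h6, h6'],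
            fun j hj => by simp [h7 j hj, h7' j hj]⟩
        | neg a _ ha =>
          obtain ⟨v, h5, h6, h7⟩ := ha
          exact ⟨-v, N.neg_mem h5, fun k => by simp [h6], fun j hj => by simp [h7 j hj]⟩
      obtain ⟨v, h5, h6, h7⟩ := h4 _ (h i)
      refine ⟨c i • w' - v, ?_, fun j hj => ?_⟩
      · rw [Finset.prod_insert hi, mul_smul, sub_right_comm, ← smul_sub]
        exact N.sub_mem (N.nsmul_mem h1 _) h5
      · rcases Finset.mem_insert.1 hj with rfl | hj
        · funext k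
          simp [h6, hx]
        · simp [h2 j hj, h7 j (h2 j hj)]
  obtain ⟨w', h1, h2⟩ := key Finset.univ
  rw [(funext fun i => h2 i (Finset.mem_univ i) : w' = 0), zero_sub] at h1
  exact neg_mem_iff.1 h1

end

end Pool.Agent.Lib.MP_16ef92_ag.ND
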